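import Pool.Agent.K6.H34.S3.Grp

/-!
# Equal braids are given by equivalent words
-/

set_option autoImplicit false

namespace Pool.Agent.K6.H34.S3

/-- local moves of words -/
inductive Loc : Word → Word → Prop
  | cancel (u v : Word) (b : Bool) (i : Fin 2) : Loc (u ++ (b, i) :: (!b, i) :: v) (u ++ v)
  | braid (u v : Word) (b : Bool) :
      Loc (u ++ (b, 0) :: (b, 1) :: (b, 0) :: v) (u ++ (b, 1) :: (b, 0) :: (b, 1) :: v)

theorem Loc.move {w w' : Word} (h : Loc w w') : Move w w' := by
  cases h with
  | cancel u v b i => exact Move.cancel u v b i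
  | braid u v b => exact Move.braid u v b

theorem Loc.append {w w' : Word} (h : Loc w w') (x y : Word) : Loc (x ++ w ++ y) (x ++ w' ++ y) := by
  cases h with
  | cancel u v b i =>
    have := Loc.cancel (x ++ u) (v ++ y) b i
    simpa [List.append_assoc] using this
  | braid u v b =>
    have := Loc.braid (x ++ u) (v ++ y) b
    simpa [List.append_assoc] using this

theorem eqv_append {w w' : Word} (h : Relation.EqvGen Loc w w') (x y : Word) :
    Relation.EqvGen Loc (x ++ w ++ y) (x ++ w' ++ y) := by
  induction h with
  | rel a b h => exact .rel _ _ (h.append x y)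
  | refl a => exact .refl _
  | symm a b _ ih => exact .symm _ _ ih
  | trans a b c _ _ ih ih' => exact .trans _ _ _ ih ih'

theorem eqv_mul {w w' x x' : Word} (h : Relation.EqvGen Loc w w') (h' : Relation.EqvGen Loc x x') :
    Relation.EqvGen Loc (w ++ x) (w' ++ x') := by
  have h1 := eqv_append h [] x
  have h2 := eqv_append h' w' []
  simp only [List.nil_append, List.append_nil] at h1 h2
  exact .trans _ _ _ h1 h2

/-- the congruence -/
def con : Con (FreeMonoid (Bool × Fin 2)) where
  r x y := Relation.EqvGen Loc x.toList y.toList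
  iseqv := ⟨fun x => .refl _, fun h => .symm _ _ h, fun h h' => .trans _ _ _ h h'⟩
  mul' := by
    intro w x y z h h'
    exact eqv_mul h h'

/-- the class of a word -/
def cls (w : Word) : con.Quotient := (FreeMonoid.ofList w : FreeMonoid (Bool × Fin 2))

theorem cls_append (w w' : Word) : cls (w ++ w') = cls w * cls w' := rfl

theorem cls_nil : cls [] = 1 := rfl

theorem cls_eq {w w' : Word} : cls w = cls w' ↔ Relation.EqvGen Loc w w' := by
  unfold cls
  rw [Con.eq]
  rfl

theorem cls_cancel (b : Bool) (i : Fin 2) : cls [(b, i)] * cls [(!b, i)] = 1 := by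
  rw [← cls_append, ← cls_nil, cls_eq]
  exact .rel _ _ (Loc.cancel [] [] b i)

/-- the unit of a letter -/
def un (b : Bool) (i : Fin 2) : con.Quotientˣ where
  val := cls [(b, i)]
  inv := cls [(!b, i)]
  val_inv := cls_cancel b i
  inv_val := by
    have := cls_cancel (!b) i
    rwa [Bool.not_not] at this

theorem un_inv (b : Bool) (i : Fin 2) : (un b i)⁻¹ = un (!b) i := by
  apply Units.ext
  rfl

theorem un_br : un true 0 * un true 1 * un true 0 = un true 1 * un true 0 * un true 1 := by
  apply Units.ext
  show cls _ * cls _ * cls _ = cls _ * cls _ * cls _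
  rw [← cls_append, ← cls_append, ← cls_append, ← cls_append, cls_eq]
  exact .rel _ _ (Loc.braid [] [] true)

/-- the class of a braid -/
def bcls : B3 →* con.Quotientˣ := mkHom (un true) un_br

theorem bcls_braid (w : Word) : (bcls (braid w)).val = cls w := by
  induction w with
  | nil => simp [braid, cls_nil]
  | cons x w ih =>
    obtain ⟨b, i⟩ := x
    have e2 : braid ((b, i) :: w) = (if b then σ i else (σ i)⁻¹) * braid w := by simp [braid]
    have e3 : cls ((b, i) :: w) = cls [(b, i)] * cls w := cls_append [(b, i)] w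
    rw [e2, e3, map_mul, Units.val_mul, ih]
    congr 1
    cases b
    · rw [if_neg (by simp), map_inv, bcls, mkHom_σ, un_inv]
      rfl
    · rw [if_pos rfl, bcls, mkHom_σ]
      rfl

theorem loc_of_braid {w w' : Word} (h : braid w = braid w') : Relation.EqvGen Loc w w' := by
  rw [← cls_eq, ← bcls_braid, ← bcls_braid, h]

theorem eqv_of_braid {w w' : Word} (h : braid w = braid w') : Relation.EqvGen Move w w' := by
  have h1 := loc_of_braid h
  clear h
  induction h1 with
  | rel a b h => exact .rel _ _ h.move
  | refl a => exact .refl _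
  | symm a b _ ih => exact .symm _ _ ih
  | trans a b c _ _ ih ih' => exact .trans _ _ _ ih ih'

theorem braid_append (w w' : Word) : braid (w ++ w') = braid w * braid w' := by
  simp [braid]

theorem braid_cons (b : Bool) (i : Fin 2) (w : Word) :
    braid ((b, i) :: w) = (if b then σ i else (σ i)⁻¹) * braid w := by simp [braid]

theorem braid_nil : braid [] = 1 := by simp [braid]

theorem braid_cancel (b : Bool) (i : Fin 2) (w : Word) : braid ((b, i) :: (!b, i) :: w) = braid w := by
  rw [braid_cons, braid_cons]
  cases b <;> simp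

theorem braid_braid (b : Bool) (w : Word) : braid ((b, 0) :: (b, 1) :: (b, 0) :: w) =
    braid ((b, 1) :: (b, 0) :: (b, 1) :: w) := by
  rw [braid_cons, braid_cons, braid_cons, braid_cons, braid_cons, braid_cons]
  cases b
  · simp only [Bool.false_eq_true, if_false]
    rw [← mul_assoc, ← mul_assoc, ← mul_assoc, ← mul_assoc]
    congr 1
    rw [← mul_inv_rev, ← mul_inv_rev, ← mul_inv_rev, ← mul_inv_rev, inv_inj, ← mul_assoc, ← mul_assoc]
    exact br
  · simp only [if_true]
    rw [← mul_assoc, ← mul_assoc, ← mul_assoc, ← mul_assoc]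
    congr 1
    exact br

/-- the standard words are untied -/
theorem std_untied (b : Bool) (n : ℕ) :
    Untied (List.replicate n (b, 1) ++ List.replicate n (!b, 0)) := by
  induction n with
  | zero => exact .refl _
  | succ n ih =>
    unfold Untied at ih ⊢
    refine .trans _ _ _ ?_ ih
    have h1 := Move.slide (List.replicate (n+1) (b, 1) ++ List.replicate n (!b, 0)) (!b)
    have h2 := Move.cancel [] (List.replicate n (b, 1) ++ List.replicate n (!b, 0)) (!b) 1
    rw [Bool.not_not] at h2
    refine .trans _ _ _ (.rel _ _ ?_) (.rel _ _ h2)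
    rw [List.append_assoc, ← List.replicate_succ'] at h1
    simpa [List.replicate_succ] using h1

theorem braid_replicate (b : Bool) (i : Fin 2) (n : ℕ) :
    braid (List.replicate n (b, i)) = (if b then σ i else (σ i)⁻¹) ^ n := by
  simp [braid]

theorem untied_of_braid {w : Word} {k : ℤ} (h : braid w = σ 1 ^ k * σ 0 ^ (-k)) : Untied w := by
  rcases k with n | n
  · refine .trans _ _ _ (eqv_of_braid ?_) (std_untied true n)
    rw [h, braid_append, braid_replicate, braid_replicate]
    simp
  · refine .trans _ _ _ (eqv_of_braid ?_) (std_untied false (n+1))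
    rw [h, braid_append, braid_replicate, braid_replicate, zpow_negSucc]
    simp only [Bool.false_eq_true, if_false, Bool.not_false, if_true, Int.neg_negSucc, inv_pow]
    congr 1

theorem move_braid {w w' : Word} (h : Move w w') :
    (∃ k : ℤ, braid w = σ 1 ^ k * σ 0 ^ (-k)) ↔ (∃ k : ℤ, braid w' = σ 1 ^ k * σ 0 ^ (-k)) := by
  cases h with
  | cancel u v b i => rw [braid_append, braid_cancel, ← braid_append]
  | braid u v b => rw [braid_append, braid_braid, ← braid_append]
  | slide w b =>
    rw [braid_append, braid_cons, braid_cons, braid_nil, mul_one]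
    obtain ⟨ε, hε⟩ : ∃ ε : ℤ, ∀ i, (if b then σ i else (σ i)⁻¹) = σ i ^ ε := by
      cases b
      · exact ⟨-1, fun i => by simp⟩
      · exact ⟨1, fun i => by simp⟩
    rw [hε, hε]
    constructor
    · rintro ⟨k, hk⟩
      refine ⟨k + ε, ?_⟩
      have : braid w = σ 1 ^ k * σ 0 ^ (-k) * (σ 0 ^ ε)⁻¹ := by rw [← hk]; group
      rw [this, zpow_add]
      group
    · rintro ⟨k, hk⟩
      refine ⟨k - ε, ?_⟩
      have : braid w = (σ 1 ^ ε)⁻¹ * (σ 1 ^ k * σ 0 ^ (-k)) := by rw [← hk]; group
      rw [this]
      group

theorem untied_iff (w : Word) : Untied w ↔ ∃ k : ℤ, braid w = σ 1 ^ k * σ 0 ^ (-k) := by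
  constructor
  · intro h
    unfold Untied at h
    have key : ∀ {w w' : Word}, Relation.EqvGen Move w w' →
        ((∃ k : ℤ, braid w = σ 1 ^ k * σ 0 ^ (-k)) ↔ (∃ k : ℤ, braid w' = σ 1 ^ k * σ 0 ^ (-k))) := by
      intro w w' h
      induction h with
      | rel a b h => exact move_braid h
      | refl a => exact Iff.rfl
      | symm a b _ ih => exact ih.symm
      | trans a b c _ _ ih ih' => exact ih.trans ih'
    rw [key h]
    exact ⟨0, by simp [braid_nil]⟩
  · rintro ⟨k, hk⟩
    exact untied_of_braid hk

end Pool.Agent.K6.H34.S3
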