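import Pool.Agent.K6.H34.S3.Rep

/-!
# The value at a primitive eighth root of unity
-/

set_option autoImplicit false

namespace Pool.Agent.K6.H34.S3

open Complex

theorem Z_det (g : B3) : (Z g).val.det = 1 := by
  induction g using B3_induction with
  | one => simp
  | mul0 y hy => rw [map_mul, Units.val_mul, Matrix.det_mul, hy, Z_0]; simp [Matrix.det_fin_two]
  | mul0' y hy =>
    rw [map_mul, Units.val_mul, Matrix.det_mul, hy]
    have : (Z (σ 0)⁻¹).val = !![1, 0; -1, 1] := by rw [map_inv, Z, mkHom_σ]; rfl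
    rw [this]; simp [Matrix.det_fin_two]
  | mul1 y hy => rw [map_mul, Units.val_mul, Matrix.det_mul, hy, Z_1]; simp [Matrix.det_fin_two]
  | mul1' y hy => rw [map_mul, Units.val_mul, Matrix.det_mul, hy, Z_1i]; simp [Matrix.det_fin_two]

theorem Z_0pow (k : ℤ) : (Z (σ 0 ^ k)).val = !![1, 0; k, 1] := by
  induction k using Int.induction_on with
  | zero => simp [Matrix.one_fin_two]
  | succ n ih =>
    rw [zpow_add_one, map_mul, Units.val_mul, ih, Z_0]
    ext i j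
    fin_cases i <;> fin_cases j <;> simp [Matrix.mul_apply, Fin.sum_univ_two]
  | pred n ih =>
    have : (Z (σ 0)⁻¹).val = !![1, 0; -1, 1] := by rw [map_inv, Z, mkHom_σ]; rfl
    rw [zpow_sub_one, map_mul, Units.val_mul, ih, this]
    ext i j
    fin_cases i <;> fin_cases j <;> simp [Matrix.mul_apply, Fin.sum_univ_two]
    try ring

theorem Z_1pow (k : ℤ) : (Z (σ 1 ^ k)).val = !![1, -k; 0, 1] := by
  induction k using Int.induction_on with
  | zero => simp [Matrix.one_fin_two]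
  | succ n ih =>
    rw [zpow_add_one, map_mul, Units.val_mul, ih, Z_1]
    ext i j
    fin_cases i <;> fin_cases j <;> simp [Matrix.mul_apply, Fin.sum_univ_two]
    try ring
  | pred n ih =>
    rw [zpow_sub_one, map_mul, Units.val_mul, ih, Z_1i]
    ext i j
    fin_cases i <;> fin_cases j <;> simp [Matrix.mul_apply, Fin.sum_univ_two]
    try ring

theorem Z_triv (k : ℤ) : (Z (σ 1 ^ k * σ 0 ^ (-k))).val = !![1 + k ^ 2, -k; -k, 1] := by
  rw [map_mul, Units.val_mul, Z_0pow, Z_1pow]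
  ext i j
  fin_cases i <;> fin_cases j <;> simp [Matrix.mul_apply, Fin.sum_univ_two]
  ring

/-- if the image has `Z g 0 1 = Z g 1 0` and `Z g 1 1 = ± 1` then `g` is a trivial braid up to full
twists -/
theorem of_image {g : B3} (h1 : (Z g).val 0 1 = (Z g).val 1 0)
    (h2 : (Z g).val 1 1 = 1 ∨ (Z g).val 1 1 = -1) :
    ∃ m k : ℤ, g = C3 ^ m * (σ 1 ^ k * σ 0 ^ (-k)) := by
  have hd := Z_det g
  rw [Matrix.det_fin_two] at hd
  have key : ∀ k : ℤ, (Z g = Z (σ 1 ^ k * σ 0 ^ (-k)) ∨ Z g = - Z (σ 1 ^ k * σ 0 ^ (-k))) →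
      ∃ m k : ℤ, g = C3 ^ m * (σ 1 ^ k * σ 0 ^ (-k)) := by
    intro k hk
    obtain ⟨m, hm⟩ : ∃ m : ℤ, g * (σ 1 ^ k * σ 0 ^ (-k))⁻¹ = C3 ^ m := by
      apply kernel
      rw [map_mul, map_inv]
      rcases hk with hk | hk
      · left; rw [hk, mul_inv_cancel]
      · right; rw [hk, neg_mul, mul_inv_cancel]
    exact ⟨m, k, by rw [← hm]; group⟩
  rcases h2 with h2 | h2
  · apply key (-(Z g).val 0 1)
    left
    apply Units.ext
    rw [Z_triv]
    ext i j
    fin_cases i <;> fin_cases j <;> simp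
    · rw [h2, ← h1] at hd; linarith
    · exact h1.symm
    · exact h2
  · apply key ((Z g).val 0 1)
    right
    apply Units.ext
    rw [Units.val_neg, Z_triv]
    ext i j
    fin_cases i <;> fin_cases j <;> simp
    · rw [h2, ← h1] at hd; linarith
    · exact h1.symm
    · exact h2

theorem inv_eight (z : ℂˣ) (hz : (z : ℂ) ^ 2 = I) : ((z⁻¹ : ℂˣ) : ℂ) = -(I * z) := by
  have hz0 : (z : ℂ) ≠ 0 := z.ne_zero
  rw [Units.val_inv_eq_inv_val, eq_comm]
  apply eq_inv_of_mul_eq_one_left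
  linear_combination (-I) * hz - I_mul_I

theorem g0_eight (z : ℂˣ) (hz : (z : ℂ) ^ 2 = I) : (g0 z).val = !![(z : ℂ), 0; -(I * z), z] := by
  have hi := inv_eight z hz
  have h3 : -((z⁻¹ : ℂˣ) : ℂ) ^ 3 = z := by
    rw [hi]
    linear_combination ((z : ℂ) * I ^ 3) * hz + ((z : ℂ) * (I ^ 2 - 1)) * I_mul_I
  simp only [g0, h3]
  rw [hi]

theorem g1_eight (z : ℂˣ) (hz : (z : ℂ) ^ 2 = I) : (g1 z).val = !![(z : ℂ), -(I * z); 0, z] := by
  have hi := inv_eight z hz
  have h3 : -((z⁻¹ : ℂˣ) : ℂ) ^ 3 = z := by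
    rw [hi]
    linear_combination ((z : ℂ) * I ^ 3) * hz + ((z : ℂ) * (I ^ 2 - 1)) * I_mul_I
  simp only [g1, h3]
  rw [hi]

theorem g0i_eight (z : ℂˣ) (hz : (z : ℂ) ^ 2 = I) :
    (g0 z)⁻¹.val = !![-(I * z : ℂ), 0; (z : ℂ), -(I * z)] := by
  have hi := inv_eight z hz
  have h3 : -(z : ℂ) ^ 3 = -(I * z) := by rw [← hz]; ring
  show !![((z⁻¹ : ℂˣ) : ℂ), 0; (z : ℂ), -(z : ℂ) ^ 3] = _
  rw [h3, hi]

theorem g1i_eight (z : ℂˣ) (hz : (z : ℂ) ^ 2 = I) :
    (g1 z)⁻¹.val = !![-(I * z : ℂ), (z : ℂ); 0, -(I * z)] := by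
  have hi := inv_eight z hz
  have h3 : -(z : ℂ) ^ 3 = -(I * z) := by rw [← hz]; ring
  show !![-(z : ℂ) ^ 3, (z : ℂ); 0, ((z⁻¹ : ℂˣ) : ℂ)] = _
  rw [h3, hi]

/-- the Burau representation at a primitive eighth root of unity -/
theorem R_eight (z : ℂˣ) (hz : (z : ℂ) ^ 2 = I) (g : B3) :
    (R z g).val = !![((chi z g : ℂˣ) : ℂ) * (Z g).val 0 0, ((chi z g : ℂˣ) : ℂ) * (I * (Z g).val 0 1);
      -(((chi z g : ℂˣ) : ℂ) * (I * (Z g).val 1 0)), ((chi z g : ℂˣ) : ℂ) * (Z g).val 1 1] := by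
  have hi := inv_eight z hz
  have Z0i : (Z (σ 0)⁻¹).val = !![1, 0; -1, 1] := by rw [map_inv, Z, mkHom_σ]; rfl
  have II : I ^ 2 = -1 := I_sq
  induction g using B3_induction with
  | one =>
    ext i j
    fin_cases i <;> fin_cases j <;> simp
  | mul0 y hy =>
    rw [map_mul, Units.val_mul, hy, R_0, map_mul, Units.val_mul, map_mul, Units.val_mul, Z_0, chi_σ,
      g0_eight z hz]
    ext i j
    fin_cases i <;> fin_cases j <;> simp [Matrix.mul_apply, Fin.sum_univ_two]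
    · ring
    · ring
    · ring
    · linear_combination (-(z : ℂ) * (((chi z) y : ℂˣ) : ℂ) * ((Z y).val 0 1 : ℂ)) * II
  | mul0' y hy =>
    rw [map_mul, Units.val_mul, hy, map_inv, R_0, map_mul, Units.val_mul, map_mul, Units.val_mul, Z0i,
      map_inv, chi_σ, g0i_eight z hz, hi]
    ext i j
    fin_cases i <;> fin_cases j <;> simp [Matrix.mul_apply, Fin.sum_univ_two]
    · ring
    · ring
    · linear_combination (-(z : ℂ) * (((chi z) y : ℂˣ) : ℂ) * (-((Z y).val 0 0 : ℂ))) * II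
    · ring
  | mul1 y hy =>
    rw [map_mul, Units.val_mul, hy, R_1, map_mul, Units.val_mul, map_mul, Units.val_mul, Z_1, chi_σ,
      g1_eight z hz]
    ext i j
    fin_cases i <;> fin_cases j <;> simp [Matrix.mul_apply, Fin.sum_univ_two]
    · linear_combination ((z : ℂ) * (((chi z) y : ℂˣ) : ℂ) * ((Z y).val 1 0 : ℂ)) * II
    · ring
    · ring
    · ring
  | mul1' y hy =>
    rw [map_mul, Units.val_mul, hy, map_inv, R_1, map_mul, Units.val_mul, map_mul, Units.val_mul, Z_1i,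
      map_inv, chi_σ, g1i_eight z hz, hi]
    ext i j
    fin_cases i <;> fin_cases j <;> simp [Matrix.mul_apply, Fin.sum_univ_two]
    · ring
    · linear_combination ((z : ℂ) * (((chi z) y : ℂˣ) : ℂ) * ((Z y).val 1 1 : ℂ)) * II
    · ring
    · ring

theorem Lam_eight (z : ℂˣ) (hz : (z : ℂ) ^ 2 = I) (g : B3) :
    Lam z g = ((chi z g : ℂˣ) : ℂ) * ((Z g).val 1 1 + I * ((Z g).val 0 1 - (Z g).val 1 0)) := by
  have hd : dl z = 0 := by
    rw [dl, inv_eight z hz]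
    linear_combination (-1 - I ^ 2) * hz + (-I) * I_mul_I
  rw [Lam, hd, R_eight z hz, tt, hd]
  simp
  ring

theorem exists_eight : ∃ z : ℂˣ, (z : ℂ) ^ 2 = I := by
  obtain ⟨w, hw⟩ := IsAlgClosed.exists_pow_nat_eq (n := 2) I (by norm_num)
  have hw0 : w ≠ 0 := by
    rintro rfl
    rw [zero_pow two_ne_zero] at hw
    exact I_ne_zero hw.symm
  exact ⟨Units.mk0 w hw0, hw⟩

end Pool.Agent.K6.H34.S3
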