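import Pool.Agent.K6.H34.S3.Eight

/-!
# The braids for which the normalised functional is `1`
-/

set_option autoImplicit false

namespace Pool.Agent.K6.H34.S3

open LaurentPolynomial Complex

/-- the variable as a unit -/
noncomputable def uT : ℤ[T;T⁻¹]ˣ where
  val := T 1
  inv := T (-1)
  val_inv := by rw [← T_add]; simp
  inv_val := by rw [← T_add]; simp

theorem uT_zpow (n : ℤ) : ((uT ^ n : ℤ[T;T⁻¹]ˣ) : ℤ[T;T⁻¹]) = T n := by
  induction n using Int.induction_on with
  | zero => simp
  | succ n ih => rw [zpow_add_one, Units.val_mul, ih, uT, ← T_add]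
  | pred n ih =>
    rw [zpow_sub_one, Units.val_mul, ih]
    show T (-(n : ℤ)) * T (-1) = _
    rw [← T_add]
    rfl

theorem dl_uT : dl uT = -T 2 - T (-2) := by
  rw [dl]
  show -(T 1 : ℤ[T;T⁻¹]) ^ 2 - (T (-1) : ℤ[T;T⁻¹]) ^ 2 = _
  rw [T_pow, T_pow]
  norm_num

/-- the sign in the normalisation -/
noncomputable def sgn (e : ℤ) : ℤ[T;T⁻¹] := if Even e then 1 else -1

theorem sgn_sq (e : ℤ) : sgn e * sgn e = 1 := by
  unfold sgn; split_ifs <;> ring

theorem P_eq {e : ℤ} {P : ℤ[T;T⁻¹]} (h : sgn e * T (-3 * e) * P = 1) : P = sgn e * T (3 * e) := by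
  have h1 : (T (3 * e) : ℤ[T;T⁻¹]) * T (-3 * e) = 1 := by
    rw [← T_add]
    have : 3 * e + -3 * e = 0 := by ring
    rw [this, T_zero]
  calc P = (sgn e * sgn e) * (T (3 * e) * T (-3 * e)) * P := by rw [sgn_sq, h1]; ring
    _ = sgn e * T (3 * e) * (sgn e * T (-3 * e) * P) := by ring
    _ = _ := by rw [h, mul_one]

/-- evaluation at a unit of a commutative ring -/
noncomputable def evU {S : Type*} [CommRing S] (z : Sˣ) : ℤ[T;T⁻¹] →+* S :=
  LaurentPolynomial.eval₂ (Int.castRingHom S) z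

theorem evU_T {S : Type*} [CommRing S] (z : Sˣ) (n : ℤ) : evU z (T n) = ((z ^ n : Sˣ) : S) := by
  unfold evU
  rw [LaurentPolynomial.eval₂_T]

theorem map_uT {S : Type*} [CommRing S] (z : Sˣ) : Units.map (evU z).toMonoidHom uT = z := by
  apply Units.ext
  show evU z (T 1) = _
  rw [evU_T, zpow_one]

theorem evU_Lam {S : Type*} [CommRing S] (z : Sˣ) (g : B3) : evU z (Lam uT g) = Lam z g := by
  rw [Lam_map, map_uT]

theorem evU_dl {S : Type*} [CommRing S] (z : Sˣ) : evU z (dl uT) = dl z := by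
  have h : evU z (T 1) = (z : S) := by rw [evU_T, zpow_one]
  have h' : evU z (T (-1)) = ((z⁻¹ : Sˣ) : S) := by rw [evU_T, zpow_neg_one]
  rw [dl, dl]
  show evU z (-(T 1 : ℤ[T;T⁻¹]) ^ 2 - (T (-1) : ℤ[T;T⁻¹]) ^ 2) = _
  rw [map_sub, map_neg, map_pow, map_pow, h, h']

/-- the first step: evaluation at a primitive eighth root of unity -/
theorem step_one {g : B3} {e : ℤ} (he : ex g = Multiplicative.ofAdd e)
    (hP : (1 + dl uT) * (sgn e * T (3 * e)) = Lam uT g) :
    ∃ m k : ℤ, g = C3 ^ m * (σ 1 ^ k * σ 0 ^ (-k)) := by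
  obtain ⟨z, hz⟩ := exists_eight
  have hd : dl z = 0 := by
    rw [dl, inv_eight z hz]
    linear_combination (-1 - I ^ 2) * hz + (-I) * I_mul_I
  have h1 := congrArg (evU z) hP
  rw [evU_Lam, Lam_eight z hz, map_mul, map_add, map_one, evU_dl, hd, add_zero, one_mul, map_mul,
    evU_T, chi_eq, he] at h1
  change _ = ((z ^ e : ℂˣ) : ℂ) * _ at h1
  have h2 : ((z ^ (3 * e) : ℂˣ) : ℂ) = ((z ^ e : ℂˣ) : ℂ) * I ^ e := by
    have : (3 * e) = e + 2 * e := by ring
    rw [this, zpow_add, Units.val_mul]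
    congr 1
    rw [zpow_mul, Units.val_zpow_eq_zpow_val]
    congr 1
  rw [h2] at h1
  have hc : ((z ^ e : ℂˣ) : ℂ) ≠ 0 := Units.ne_zero _
  have h3 : evU z (sgn e) * I ^ e =
      ((Z g).val 1 1 + I * ((Z g).val 0 1 - (Z g).val 1 0) : ℂ) := by
    apply mul_left_cancel₀ hc
    rw [← h1]
    ring
  have hdet := Z_det g
  rw [Matrix.det_fin_two] at hdet
  rcases Int.even_or_odd' e with ⟨f, hf | hf⟩
  · -- even
    have h4 : I ^ e = 1 ∨ I ^ e = -1 := by
      rw [hf, zpow_mul]
      have : (I ^ (2 : ℤ) : ℂ) = -1 := by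
        rw [show (2 : ℤ) = ((2 : ℕ) : ℤ) from rfl, zpow_natCast, I_sq]
      rw [this]
      rcases Int.even_or_odd f with h | h
      · left; rw [Even.neg_zpow h, one_zpow]
      · right; rw [Odd.neg_zpow h, one_zpow]
    have h5 : evU z (sgn e) = 1 := by
      rw [sgn, if_pos ⟨f, by omega⟩, map_one]
    rw [h5, one_mul] at h3
    have hre := congrArg Complex.re h3
    have him := congrArg Complex.im h3
    rcases h4 with h4 | h4
    · rw [h4] at hre him
      simp at hre him
      apply of_image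
      · have : ((Z g).val 0 1 : ℝ) = ((Z g).val 1 0 : ℝ) := by linarith
        exact_mod_cast this
      · left
        have : ((Z g).val 1 1 : ℝ) = 1 := by linarith
        exact_mod_cast this
    · rw [h4] at hre him
      simp at hre him
      apply of_image
      · have : ((Z g).val 0 1 : ℝ) = ((Z g).val 1 0 : ℝ) := by linarith
        exact_mod_cast this
      · right
        have : ((Z g).val 1 1 : ℝ) = -1 := by linarith
        exact_mod_cast this
  · -- odd
    exfalso
    have h4 : I ^ e = I ∨ I ^ e = -I := by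
      rw [hf, zpow_add_one₀ I_ne_zero, zpow_mul]
      have : (I ^ (2 : ℤ) : ℂ) = -1 := by
        rw [show (2 : ℤ) = ((2 : ℕ) : ℤ) from rfl, zpow_natCast, I_sq]
      rw [this]
      rcases Int.even_or_odd f with h | h
      · left; rw [Even.neg_zpow h, one_zpow, one_mul]
      · right; rw [Odd.neg_zpow h, one_zpow, neg_one_mul]
    have h5 : evU z (sgn e) = -1 := by
      rw [sgn, if_neg (by rw [Int.not_even_iff_odd]; exact ⟨f, hf⟩), map_neg, map_one]
    rw [h5] at h3
    have hre := congrArg Complex.re h3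
    have him := congrArg Complex.im h3
    have key : (Z g).val 1 1 = 0 ∧ ((Z g).val 0 1 - (Z g).val 1 0 = 1 ∨
        (Z g).val 0 1 - (Z g).val 1 0 = -1) := by
      rcases h4 with h4 | h4
      · rw [h4] at hre him
        simp at hre him
        refine ⟨?_, Or.inr ?_⟩
        · have : ((Z g).val 1 1 : ℝ) = 0 := by linarith
          exact_mod_cast this
        · have : ((Z g).val 0 1 : ℝ) - ((Z g).val 1 0 : ℝ) = -1 := by linarith
          exact_mod_cast this
      · rw [h4] at hre him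
        simp at hre him
        refine ⟨?_, Or.inl ?_⟩
        · have : ((Z g).val 1 1 : ℝ) = 0 := by linarith
          exact_mod_cast this
        · have : ((Z g).val 0 1 : ℝ) - ((Z g).val 1 0 : ℝ) = 1 := by linarith
          exact_mod_cast this
    obtain ⟨k1, k2⟩ := key
    rw [k1, mul_zero, zero_sub] at hdet
    generalize (Z g).val 0 1 = x at *
    generalize (Z g).val 1 0 = y at *
    have h6 : x * y = -1 := by linarith
    rcases k2 with k2 | k2
    · have : x = y + 1 := by linarith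
      subst this
      have : (2 * y + 1) ^ 2 = -3 := by linarith
      nlinarith [sq_nonneg (2 * y + 1)]
    · have : x = y - 1 := by linarith
      subst this
      nlinarith [sq_nonneg (2 * y - 1)]

theorem one_add_dl_ne : (1 + dl uT : ℤ[T;T⁻¹]) ≠ 0 := by
  intro h
  have h1 := congrArg (evU (Units.mk0 (2 : ℚ) (by norm_num))) h
  rw [map_add, map_one, evU_dl, map_zero, dl] at h1
  norm_num at h1

/-- the second step: no full twists -/
theorem step_two {m : ℤ}
    (h : (1 + dl uT) * T (18 * m) = dl uT * T (6 * m) + T (-(6 * m))) : m = 0 := by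
  have h1 := congrArg (evU (Units.mk0 (2 : ℝ) (by norm_num))) h
  rw [map_mul, map_add, map_add, map_one, map_mul, evU_dl, evU_T, evU_T, evU_T, dl] at h1
  simp only [Units.val_zpow_eq_zpow_val, Units.val_mk0, Units.val_inv_eq_inv_val] at h1
  have h2 : (2 : ℝ) ^ (18 * m) = ((2 : ℝ) ^ (6 * m)) ^ 3 := by
    rw [show 18 * m = (6 * m) * ((3 : ℕ) : ℤ) by push_cast; ring, zpow_mul, zpow_natCast]
  rw [h2, zpow_neg] at h1
  have hpos : (0 : ℝ) < 2 ^ (6 * m) := by positivity
  set y := (2 : ℝ) ^ (6 * m) with hy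
  have h3 : (y ^ 2 - 1) * (13 * y ^ 2 - 4) = 0 := by
    field_simp at h1
    nlinarith
  by_contra hm
  rcases mul_eq_zero.1 h3 with h4 | h4
  · have h5 : y = 1 := by nlinarith
    have h6 : (2 : ℝ) ^ (6 * m) = (2 : ℝ) ^ (0 : ℤ) := by rw [zpow_zero]; exact h5
    have := zpow_right_injective₀ (by norm_num : (0 : ℝ) < 2) (by norm_num) h6
    omega
  · rcases lt_or_gt_of_ne hm with h5 | h5
    · have h6 : y ≤ (2 : ℝ) ^ (-6 : ℤ) := zpow_le_zpow_right₀ (by norm_num) (by omega)
      norm_num at h6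
      nlinarith
    · have h6 : (2 : ℝ) ^ (0 : ℤ) ≤ y := zpow_le_zpow_right₀ (by norm_num) (by omega)
      rw [zpow_zero] at h6
      nlinarith

theorem ex_C (m k : ℤ) : ex (C3 ^ m * (σ 1 ^ k * σ 0 ^ (-k))) = Multiplicative.ofAdd (6 * m) := by
  rw [map_mul, map_mul, map_zpow, map_zpow, map_zpow, C3, X3]
  simp only [map_mul, ex_σ]
  apply Multiplicative.toAdd.injective
  simp only [toAdd_mul, toAdd_zpow, toAdd_ofAdd, smul_eq_mul]
  ring

/-- **The algebraic form of the theorem.** -/
theorem alg_main {g : B3} {e : ℤ} (he : ex g = Multiplicative.ofAdd e) {P : ℤ[T;T⁻¹]}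
    (hP : (1 + dl uT) * P = Lam uT g) :
    sgn e * T (-3 * e) * P = 1 ↔ ∃ k : ℤ, g = σ 1 ^ k * σ 0 ^ (-k) := by
  constructor
  · intro h
    have h1 := P_eq h
    rw [h1] at hP
    obtain ⟨m, k, hg⟩ := step_one he hP
    have h2 : e = 6 * m := by
      rw [hg, ex_C] at he
      exact (Multiplicative.ofAdd.injective he).symm
    have h3 : m = 0 := by
      apply step_two
      rw [hg, Lam_C, uT_zpow, uT_zpow, h2, sgn, if_pos ⟨3 * m, by ring⟩, one_mul] at hP
      rw [← hP]
      congr 2
      ring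
    subst h3
    exact ⟨k, by simpa using hg⟩
  · rintro ⟨k, hk⟩
    have h1 : e = 0 := by
      have := ex_C 0 k
      rw [zpow_zero, one_mul, ← hk, he] at this
      have := Multiplicative.ofAdd.injective this
      simpa using this
    subst h1
    rw [hk, Lam_triv] at hP
    have h2 : P = 1 := mul_left_cancel₀ one_add_dl_ne (by rw [hP, mul_one])
    rw [h2, sgn, if_pos (by simp)]
    simp

end Pool.Agent.K6.H34.S3
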