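import Pool.Agent.W639.RB.Defs

/-!
# Spiral closures of braids on three strands

`Outer m` (starting library `Pool.Agent.H891R2.Jones.Diagram`): the part of an oriented diagram outside
a box through which `m` strands run; `draw O w` (starting library `Pool.Agent.W639.RB.Defs`): the word
`w` in the letters `(true, i) = σ_i`, `(false, i) = σ_i⁻¹` is drawn in the box, from the bottom to the
top; `Outer.close`: the rest of the box is filled with vertical strands.
-/

set_option autoImplicit false

namespace Pool.Agent.K6.H34.S3

open Pool.Agent.H891R2.Jones Pool.Agent.W639.RB

/-- The outside of the box of the spiral closure on `m` strands: there are `m + 1` marked points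
`0, …, m` and no crossings.  All strands run upwards; the upper end of the strand at the place `j` is
joined around the box to the lower end of the strand at the place `j + 1` (this is the marked point
`j + 1`), so that the curve is a spiral.  It starts at the marked point `0`, the lower end of the strand
at the place `0` (the tail), and ends at the marked point `m`, the upper end of the strand at the place
`m - 1` (the head). -/
def spiral (m : ℕ) : Outer m where
  P := Fin (m + 1)
  arcs := []
  crossings := []
  lower := Fin.castSucc
  upper := Fin.succ
  up := fun _ => true

/-- Words in the letters `(true, i) = σ_i` and `(false, i) = σ_i⁻¹`, `i = 0, 1`, of the braid group on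
three strands. -/
abbrev Word : Type := List (Bool × Fin 2)

/-- the same word with natural numbers as indices -/
def nat (w : Word) : List (Bool × ℕ) := w.map (fun x => (x.1, (x.2 : ℕ)))

/-- The knotoid diagram which is the spiral closure of the braid word `w` on three strands. -/
def knotoid (w : Word) : Diagram (draw (spiral 3) (nat w)).P := (draw (spiral 3) (nat w)).close

/-- The braid relation `σ_0 σ_1 σ_0 = σ_1 σ_0 σ_1`. -/
def Rels : Set (FreeGroup (Fin 2)) :=
  {FreeGroup.of 0 * FreeGroup.of 1 * FreeGroup.of 0 *
    (FreeGroup.of 1 * FreeGroup.of 0 * FreeGroup.of 1)⁻¹}

/-- The braid group on three strands. -/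
abbrev B3 : Type := PresentedGroup Rels

/-- The generators `σ_0`, `σ_1` of the braid group on three strands. -/
def σ (i : Fin 2) : B3 := PresentedGroup.of i

/-- The braid given by a word. -/
def braid (w : Word) : B3 := (w.map (fun x => if x.1 then σ x.2 else (σ x.2)⁻¹)).prod

/-- Moves of the spiral closures.  `cancel`: a Reidemeister move of type II; `braid`: a Reidemeister move
of type III; `slide`: the uppermost crossing, if it is at the places `0, 1`, is moved around the spiral
and becomes the lowermost crossing, at the places `1, 2` (an isotopy of the sphere).  None of them
moves a strand over or under an endpoint. -/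
inductive Move : Word → Word → Prop
  | cancel (u v : Word) (b : Bool) (i : Fin 2) : Move (u ++ (b, i) :: (!b, i) :: v) (u ++ v)
  | braid (u v : Word) (b : Bool) :
      Move (u ++ (b, 0) :: (b, 1) :: (b, 0) :: v) (u ++ (b, 1) :: (b, 0) :: (b, 1) :: v)
  | slide (w : Word) (b : Bool) : Move (w ++ [(b, 0)]) ((b, 1) :: w)

/-- The crossings of the spiral closure of `w` can be removed by moves and inverse moves (the spiral
closure of the empty word is a diagram of the trivial knotoid without crossings). -/
def Untied (w : Word) : Prop := Relation.EqvGen Move w []

end Pool.Agent.K6.H34.S3
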