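import Pool.Agent.K6.H34.S3.Defs

/-!
# The braid group on three strands and its image in `SL₂(ℤ)`

The normal form and the positivity argument follow `Pool.Agent.K7.H32.SB.Faith` (starting library).
-/

set_option autoImplicit false

namespace Pool.Agent.K6.H34.S3

theorem br : σ 0 * σ 1 * σ 0 = σ 1 * σ 0 * σ 1 := by
  have h1 : PresentedGroup.mk Rels (FreeGroup.of 0 * FreeGroup.of 1 * FreeGroup.of 0 *
    (FreeGroup.of 1 * FreeGroup.of 0 * FreeGroup.of 1)⁻¹) = 1 :=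
    PresentedGroup.one_of_mem rfl
  rw [map_mul, map_inv, mul_inv_eq_one] at h1
  simpa [σ, PresentedGroup.of] using h1

theorem lift_rels {G : Type*} [Group G] (f : Fin 2 → G) (h : f 0 * f 1 * f 0 = f 1 * f 0 * f 1) :
    ∀ r ∈ Rels, FreeGroup.lift f r = 1 := by
  rintro r rfl
  rw [map_mul, map_inv, mul_inv_eq_one]
  simpa using h

/-- a homomorphism of the braid group -/
def mkHom {G : Type*} [Group G] (f : Fin 2 → G) (h : f 0 * f 1 * f 0 = f 1 * f 0 * f 1) : B3 →* G :=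
  PresentedGroup.toGroup (lift_rels f h)

@[simp] theorem mkHom_σ {G : Type*} [Group G] (f : Fin 2 → G)
    (h : f 0 * f 1 * f 0 = f 1 * f 0 * f 1) (i : Fin 2) : mkHom f h (σ i) = f i :=
  PresentedGroup.toGroup.of (lift_rels f h)

theorem hom_ext {G : Type*} [Group G] {f g : B3 →* G} (h0 : f (σ 0) = g (σ 0))
    (h1 : f (σ 1) = g (σ 1)) : f = g := by
  refine PresentedGroup.ext fun i => ?_
  fin_cases i
  · exact h0
  · exact h1

theorem B3_induction {p : B3 → Prop} (one : p 1) (mul0 : ∀ g, p g → p (σ 0 * g))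
    (mul0' : ∀ g, p g → p ((σ 0)⁻¹ * g)) (mul1 : ∀ g, p g → p (σ 1 * g))
    (mul1' : ∀ g, p g → p ((σ 1)⁻¹ * g)) (g : B3) : p g := by
  have hg : g ∈ Subgroup.closure (Set.range (PresentedGroup.of (rels := Rels))) := by
    rw [PresentedGroup.closure_range_of]; trivial
  induction hg using Subgroup.closure_induction_left with
  | one => exact one
  | mul_left x hx y _ hy =>
    obtain ⟨i, rfl⟩ := hx
    fin_cases i
    · exact mul0 _ hy
    · exact mul1 _ hy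
  | inv_mul_cancel x hx y _ hy =>
    obtain ⟨i, rfl⟩ := hx
    fin_cases i
    · exact mul0' _ hy
    · exact mul1' _ hy

def X3 : B3 := σ 1 * σ 0 * σ 1
def Y3 : B3 := σ 1 * σ 0
/-- the full twist -/
def C3 : B3 := X3 * X3

def val : List Bool → B3
  | [] => 1
  | true :: w => (σ 1)⁻¹ * val w
  | false :: w => σ 0 * val w

theorem X3_s0 : X3 * σ 0 = σ 1 * X3 := by
  calc X3 * σ 0 = σ 1 * (σ 0 * σ 1 * σ 0) := by rw [X3]; group
    _ = σ 1 * X3 := by rw [br, X3]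

theorem X3_s1 : X3 * σ 1 = σ 0 * X3 := by
  calc X3 * σ 1 = (σ 0 * σ 1 * σ 0) * σ 1 := by rw [X3, br]
    _ = σ 0 * X3 := by rw [X3]; group

theorem C3_s0 : Commute C3 (σ 0) := by
  change C3 * σ 0 = σ 0 * C3
  rw [C3, mul_assoc, X3_s0, ← mul_assoc, X3_s1, mul_assoc]

theorem C3_s1 : Commute C3 (σ 1) := by
  change C3 * σ 1 = σ 1 * C3
  rw [C3, mul_assoc, X3_s1, ← mul_assoc, X3_s0, mul_assoc]

theorem C3_Y3 : Commute C3 Y3 := C3_s1.mul_right C3_s0
theorem C3_X3 : Commute C3 X3 := (C3_s1.mul_right C3_s0).mul_right C3_s1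

theorem X3_inv : X3 * (σ 1)⁻¹ = Y3 := by rw [X3, Y3]; group
theorem X3_pos : X3 * σ 0 = Y3 * Y3 := by
  rw [X3, Y3]; group

theorem Y3_cube : Y3 * Y3 * Y3 = C3 := by
  calc Y3 * Y3 * Y3 = (σ 1 * σ 0 * σ 1) * (σ 0 * σ 1 * σ 0) := by rw [Y3]; group
    _ = C3 := by rw [br]; rfl

theorem X3_Y3 : X3 * Y3 = C3 * (σ 1)⁻¹ := by
  rw [C3, mul_assoc, X3_inv]

theorem X3_Y3_Y3 : X3 * (Y3 * Y3) = C3 * σ 0 := by
  rw [C3, mul_assoc, X3_pos]

/-- the normal form -/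
def NF (g : B3) : Prop :=
  ∃ (k : ℤ) (i j : ℕ) (w : List Bool), i < 3 ∧ j < 2 ∧ g = C3 ^ k * (Y3 ^ i * (val w * X3 ^ j))

theorem NF_one : NF 1 := ⟨0, 0, 0, [], by omega, by omega, by simp [val]⟩

theorem NF_C (n : ℤ) {g : B3} (h : NF g) : NF (C3 ^ n * g) := by
  obtain ⟨k, i, j, w, hi, hj, rfl⟩ := h
  exact ⟨n + k, i, j, w, hi, hj, by rw [zpow_add, mul_assoc]⟩

theorem NF_Y {g : B3} (h : NF g) : NF (Y3 * g) := by
  obtain ⟨k, i, j, w, hi, hj, rfl⟩ := h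
  have hc : Y3 * C3 ^ k = C3 ^ k * Y3 := ((C3_Y3.zpow_left k).eq).symm
  by_cases h2 : i < 2
  · refine ⟨k, i + 1, j, w, by omega, hj, ?_⟩
    rw [← mul_assoc, hc, mul_assoc, ← mul_assoc Y3, ← pow_succ']
  · have : i = 2 := by omega
    subst this
    refine ⟨k + 1, 0, j, w, by omega, hj, ?_⟩
    rw [← mul_assoc, hc, mul_assoc, ← mul_assoc Y3, ← pow_succ', zpow_add_one, pow_zero, one_mul,
      show Y3 ^ (2 + 1) = C3 by rw [← Y3_cube]; simp [pow_succ], mul_assoc]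

theorem NF_X {g : B3} (h : NF g) : NF (X3 * g) := by
  obtain ⟨k, i, j, w, hi, hj, rfl⟩ := h
  have hc : X3 * C3 ^ k = C3 ^ k * X3 := ((C3_X3.zpow_left k).eq).symm
  rw [← mul_assoc, hc, mul_assoc]
  apply NF_C
  obtain h0 | h0 | h0 : i = 0 ∨ i = 1 ∨ i = 2 := by omega
  · subst h0
    rw [pow_zero, one_mul]
    match w with
    | [] =>
      by_cases hj1 : j = 0
      · subst hj1
        exact ⟨0, 0, 1, [], by omega, by omega, by simp [val]⟩
      · have : j = 1 := by omega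
        subst this
        exact ⟨1, 0, 0, [], by omega, by omega, by simp [val, C3]⟩
    | true :: w =>
      refine ⟨0, 1, j, w, by omega, hj, ?_⟩
      rw [zpow_zero, one_mul, pow_one, val, ← X3_inv]; group
    | false :: w =>
      refine ⟨0, 2, j, w, by omega, hj, ?_⟩
      rw [zpow_zero, one_mul, pow_two, val, ← X3_pos]; group
  · subst h0
    refine ⟨1, 0, j, true :: w, by omega, hj, ?_⟩
    rw [pow_one, zpow_one, pow_zero, one_mul, ← mul_assoc, X3_Y3, val]; group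
  · subst h0
    refine ⟨1, 0, j, false :: w, by omega, hj, ?_⟩
    rw [pow_two, zpow_one, pow_zero, one_mul, ← mul_assoc, X3_Y3_Y3, val]; group

theorem s0_eq : σ 0 = C3 ^ (-1 : ℤ) * (X3 * (Y3 * Y3)) := by
  rw [X3_Y3_Y3]; group

theorem s1_inv_eq : (σ 1)⁻¹ = C3 ^ (-1 : ℤ) * (X3 * Y3) := by
  rw [X3_Y3]; group

theorem s1_eq : σ 1 = C3 ^ (-1 : ℤ) * (Y3 * (Y3 * X3)) := by
  have h : Y3 * σ 1 = X3 := by rw [← X3_inv]; group
  rw [← h, ← Y3_cube]; group

theorem s0_inv_eq : (σ 0)⁻¹ = C3 ^ (-1 : ℤ) * (Y3 * X3) := by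
  have h : C3 ^ (-1 : ℤ) * (Y3 * X3) * σ 0 = 1 := by
    rw [mul_assoc, mul_assoc, X3_pos, ← mul_assoc Y3, Y3_cube]; group
  exact inv_eq_of_mul_eq_one_left h

theorem NF_all (g : B3) : NF g := by
  refine B3_induction NF_one (fun y hy => ?_) (fun y hy => ?_) (fun y hy => ?_) (fun y hy => ?_) g
  · rw [s0_eq, mul_assoc, mul_assoc, mul_assoc]
    exact NF_C _ (NF_X (NF_Y (NF_Y hy)))
  · rw [s0_inv_eq, mul_assoc, mul_assoc]
    exact NF_C _ (NF_Y (NF_X hy))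
  · rw [s1_eq, mul_assoc, mul_assoc, mul_assoc]
    exact NF_C _ (NF_Y (NF_Y (NF_X hy)))
  · rw [s1_inv_eq, mul_assoc, mul_assoc]
    exact NF_C _ (NF_X (NF_Y hy))

/-! ### The image in `SL₂(ℤ)` -/

/-- the images of the generators -/
def zgen (i : Fin 2) : (Matrix (Fin 2) (Fin 2) ℤ)ˣ :=
  if i = 0 then ⟨!![1, 0; 1, 1], !![1, 0; -1, 1], by decide, by decide⟩
  else ⟨!![1, -1; 0, 1], !![1, 1; 0, 1], by decide, by decide⟩

/-- the reduced Burau representation at `t = -1` -/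
def Z : B3 →* (Matrix (Fin 2) (Fin 2) ℤ)ˣ := mkHom zgen (by
  apply Units.ext
  simp only [zgen, Units.val_mul]
  decide)

theorem Z_0 : ((Z (σ 0) : (Matrix (Fin 2) (Fin 2) ℤ)ˣ) : Matrix (Fin 2) (Fin 2) ℤ) = !![1, 0; 1, 1] := by
  rw [Z, mkHom_σ]; rfl

theorem Z_1 : ((Z (σ 1) : (Matrix (Fin 2) (Fin 2) ℤ)ˣ) : Matrix (Fin 2) (Fin 2) ℤ) = !![1, -1; 0, 1] := by
  rw [Z, mkHom_σ]; rfl

theorem Z_1i : ((Z (σ 1)⁻¹ : (Matrix (Fin 2) (Fin 2) ℤ)ˣ) : Matrix (Fin 2) (Fin 2) ℤ) = !![1, 1; 0, 1] := by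
  rw [map_inv, Z, mkHom_σ]; rfl

theorem Z_Y : ((Z Y3 : (Matrix (Fin 2) (Fin 2) ℤ)ˣ) : Matrix (Fin 2) (Fin 2) ℤ) = !![0, -1; 1, 1] := by
  rw [Y3, map_mul, Units.val_mul, Z_0, Z_1]; decide

theorem Z_X : ((Z X3 : (Matrix (Fin 2) (Fin 2) ℤ)ˣ) : Matrix (Fin 2) (Fin 2) ℤ) = !![0, -1; 1, 0] := by
  rw [X3, map_mul, map_mul, Units.val_mul, Units.val_mul, Z_0, Z_1]; decide

theorem Z_C : ((Z C3 : (Matrix (Fin 2) (Fin 2) ℤ)ˣ) : Matrix (Fin 2) (Fin 2) ℤ) = -1 := by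
  rw [C3, map_mul, Units.val_mul, Z_X]; decide

theorem Z_C' : Z C3 = -1 := Units.ext Z_C

theorem Z_Cpow (k : ℤ) : Z (C3 ^ k) = 1 ∨ Z (C3 ^ k) = -1 := by
  rw [map_zpow, Z_C']
  rcases Int.even_or_odd k with h | h
  · left; rw [Even.neg_zpow h, one_zpow]
  · right; rw [Odd.neg_zpow h, one_zpow]

theorem Z_val (w : List Bool) : ∃ p q r t : ℤ, 1 ≤ p ∧ 1 ≤ t ∧ 0 ≤ q ∧ 0 ≤ r ∧
    (w = [] ∨ 1 ≤ q + r) ∧
    ((Z (val w) : (Matrix (Fin 2) (Fin 2) ℤ)ˣ) : Matrix (Fin 2) (Fin 2) ℤ) = !![p, q; r, t] := by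
  induction w with
  | nil =>
    refine ⟨1, 0, 0, 1, by omega, by omega, by omega, by omega, Or.inl rfl, ?_⟩
    rw [val, map_one]
    simp [Matrix.one_fin_two]
  | cons l w ih =>
    obtain ⟨p, q, r, t, hp, ht, hq, hr, -, h⟩ := ih
    cases l with
    | true =>
      refine ⟨p + r, q + t, r, t, by omega, by omega, by omega, by omega, Or.inr (by omega), ?_⟩
      rw [val, map_mul, Units.val_mul, Z_1i, h]
      ext i j
      fin_cases i <;> fin_cases j <;> simp [Matrix.mul_apply, Fin.sum_univ_two]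
    | false =>
      refine ⟨p, q, p + r, q + t, by omega, by omega, by omega, by omega, Or.inr (by omega), ?_⟩
      rw [val, map_mul, Units.val_mul, Z_0, h]
      ext i j
      fin_cases i <;> fin_cases j <;> simp [Matrix.mul_apply, Fin.sum_univ_two]

/-- the kernel of the action on slopes is generated by the full twist -/
theorem kernel {g : B3} (h : Z g = 1 ∨ Z g = -1) : ∃ m : ℤ, g = C3 ^ m := by
  obtain ⟨k, i, j, w, hi, hj, rfl⟩ := NF_all g
  have h' : Z (Y3 ^ i * (val w * X3 ^ j)) = 1 ∨ Z (Y3 ^ i * (val w * X3 ^ j)) = -1 := by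
    rcases Z_Cpow k with h1 | h1 <;> rcases h with h2 | h2 <;> rw [map_mul, h1] at h2
    · left; simpa using h2
    · right; simpa using h2
    · right; rw [neg_one_mul] at h2; rw [← h2, neg_neg]
    · left; rw [neg_one_mul, neg_inj] at h2; exact h2
  obtain ⟨p, q, r, t, hp, ht, hq, hr, hw, hW⟩ := Z_val w
  have main : i = 0 ∧ j = 0 ∧ w = [] := by
    have key : ∀ e : ℤ, (e = 1 ∨ e = -1) →
        ((Z (Y3 ^ i * (val w * X3 ^ j)) : (Matrix (Fin 2) (Fin 2) ℤ)ˣ) : Matrix (Fin 2) (Fin 2) ℤ) =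
          !![e, 0; 0, e] → i = 0 ∧ j = 0 ∧ w = [] := by
      intro e he hM
      obtain h0 | h0 | h0 : i = 0 ∨ i = 1 ∨ i = 2 := by omega
      all_goals obtain h3 | h3 : j = 0 ∨ j = 1 := by omega
      all_goals subst h0
      all_goals subst h3
      all_goals
        simp only [map_mul, Units.val_mul, Z_Y, Z_X, hW, pow_zero,
          pow_one, pow_two, one_mul, mul_one] at hM
        have e1 := congrFun (congrFun hM 0) 0
        have e2 := congrFun (congrFun hM 0) 1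
        have e3 := congrFun (congrFun hM 1) 0
        have e4 := congrFun (congrFun hM 1) 1
        simp [Matrix.mul_apply, Fin.sum_univ_two] at e1 e2 e3 e4
      all_goals first | omega | (refine ⟨rfl, rfl, ?_⟩; rcases hw with hw | hw; exact hw; omega)
    rcases h' with h1 | h1
    · refine key 1 (Or.inl rfl) ?_
      rw [h1]
      simp [Matrix.one_fin_two]
    · refine key (-1) (Or.inr rfl) ?_
      rw [h1]
      ext a b
      fin_cases a <;> fin_cases b <;> simp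
  obtain ⟨rfl, rfl, rfl⟩ := main
  exact ⟨k, by simp [val]⟩

end Pool.Agent.K6.H34.S3
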