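import Pool.Agent.K6.H34.S3.Alg
import Pool.Agent.W639.RB.Words

/-!
# The bracket of the spiral closure of a braid on three strands
-/

set_option autoImplicit false

namespace Pool.Agent.K6.H34.S3

open Finset LaurentPolynomial Pool.Agent.H891R2.Jones Pool.Agent.W639.RB

/-! ### Sums over colourings of four points -/

theorem sum_cons {α : Type*} [Fintype α] {M : Type*} [AddCommMonoid M] (n : ℕ)
    (h : (Fin (n + 1) → α) → M) : ∑ c, h c = ∑ x : α, ∑ c : Fin n → α, h (Fin.cons x c) := by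
  rw [← (Fin.consEquiv (fun _ : Fin (n + 1) => α)).sum_comp, Fintype.sum_prod_type]
  rfl

theorem sum_four {α : Type*} [Fintype α] {M : Type*} [AddCommMonoid M]
    (h : (Fin 4 → α) → M) : ∑ c, h c = ∑ x, ∑ y, ∑ z, ∑ t, h ![x, y, z, t] := by
  rw [sum_cons]
  refine Finset.sum_congr rfl fun x _ => ?_
  rw [sum_cons]
  refine Finset.sum_congr rfl fun y _ => ?_
  rw [sum_cons]
  refine Finset.sum_congr rfl fun z _ => ?_
  rw [sum_cons]
  refine Finset.sum_congr rfl fun t _ => ?_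
  rw [Fintype.sum_unique]
  rfl

variable {N : ℕ}

/-- the functional given by the spiral -/
noncomputable def ZZ (A : ℂ) (N : ℕ) (X : Module.End ℂ ((Fin 3 → Fin N) → ((Fin 3 → Fin N) → ℂ))) : ℂ :=
  Zg A N (spiral 3) (X (fun x y => ind (x = y)))

theorem ZZ_eq (A : ℂ) (X : Module.End ℂ ((Fin 3 → Fin N) → ((Fin 3 → Fin N) → ℂ))) :
    ZZ A N X = ∑ x, ∑ y, ∑ z, ∑ t, X (fun x y => ind (x = y)) ![x, y, z] ![y, z, t] := by
  unfold ZZ Zg
  show ∑ col : Fin 4 → Fin N, WW A [] [] col * _ = _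
  rw [sum_four]
  refine Finset.sum_congr rfl fun x _ => Finset.sum_congr rfl fun y _ =>
    Finset.sum_congr rfl fun z _ => Finset.sum_congr rfl fun t _ => ?_
  have h1 : (fun i : Fin 3 => (![x, y, z, t] : Fin 4 → Fin N) i.castSucc) = ![x, y, z] := by
    funext i; fin_cases i <;> rfl
  have h2 : (fun i : Fin 3 => (![x, y, z, t] : Fin 4 → Fin N) i.succ) = ![y, z, t] := by
    funext i; fin_cases i <;> rfl
  change WW (P := Fin 4) A [] [] ![x, y, z, t] * X (fun x y => ind (x = y))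
    (fun i : Fin 3 => (![x, y, z, t] : Fin 4 → Fin N) i.castSucc)
    (fun i : Fin 3 => (![x, y, z, t] : Fin 4 → Fin N) i.succ) = _
  rw [h1, h2]
  simp [WW]

theorem ZZ_add (A : ℂ) (X Y : Module.End ℂ ((Fin 3 → Fin N) → ((Fin 3 → Fin N) → ℂ))) :
    ZZ A N (X + Y) = ZZ A N X + ZZ A N Y := by
  simp only [ZZ_eq, LinearMap.add_apply, Pi.add_apply, Finset.sum_add_distrib]

theorem ZZ_smul (A c : ℂ) (X : Module.End ℂ ((Fin 3 → Fin N) → ((Fin 3 → Fin N) → ℂ))) :
    ZZ A N (c • X) = c * ZZ A N X := by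
  simp only [ZZ_eq, LinearMap.smul_apply, Pi.smul_apply, smul_eq_mul, Finset.mul_sum]

/-- the cup-cap operators on three strands -/
noncomputable abbrev E (N : ℕ) (i : ℕ) : Module.End ℂ ((Fin 3 → Fin N) → ((Fin 3 → Fin N) → ℂ)) :=
  ee 3 N ((Fin 3 → Fin N) → ℂ) i

open Classical in
theorem E0_apply (ψ : (Fin 3 → Fin N) → ((Fin 3 → Fin N) → ℂ)) (x y z : Fin N) :
    E N 0 ψ ![x, y, z] = if x = y then ∑ c, ψ ![c, c, z] else 0 := by
  rw [E, ee, dif_pos (by norm_num), EE_apply]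
  have : ∀ c, upd ![x, y, z] (⟨0, by norm_num⟩ : Fin 3) ⟨0 + 1, by norm_num⟩ c = ![c, c, z] := by
    intro c; funext i; fin_cases i <;> rfl
  simp only [this]
  rfl

open Classical in
theorem E1_apply (ψ : (Fin 3 → Fin N) → ((Fin 3 → Fin N) → ℂ)) (x y z : Fin N) :
    E N 1 ψ ![x, y, z] = if y = z then ∑ c, ψ ![x, c, c] else 0 := by
  rw [E, ee, dif_pos (by norm_num), EE_apply]
  have : ∀ c, upd ![x, y, z] (⟨1, by norm_num⟩ : Fin 3) ⟨1 + 1, by norm_num⟩ c = ![x, c, c] := by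
    intro c; funext i; fin_cases i <;> rfl
  simp only [this]
  rfl

theorem ind_three (x y z x' y' z' : Fin N) :
    ind (![x, y, z] = ![x', y', z']) = if x = x' then (if y = y' then (if z = z' then 1 else 0) else 0)
      else 0 := by
  have : (![x, y, z] = ![x', y', z']) ↔ (x = x' ∧ y = y' ∧ z = z') := by
    constructor
    · intro h
      exact ⟨congrFun h 0, congrFun h 1, congrFun h 2⟩
    · rintro ⟨rfl, rfl, rfl⟩; rfl
  rw [ind_congr this]
  unfold ind
  split_ifs <;> simp_all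

theorem ZZ_one (A : ℂ) : ZZ A N 1 = N := by
  rw [ZZ_eq]
  simp only [Module.End.one_apply, ind_three]
  simp

theorem ZZ_E0 (A : ℂ) : ZZ A N (E N 0) = N := by
  rw [ZZ_eq]
  simp only [E0_apply, Finset.sum_apply, ite_apply, ind_three, Pi.zero_apply]
  simp

theorem ZZ_E1 (A : ℂ) : ZZ A N (E N 1) = N := by
  rw [ZZ_eq]
  simp only [E1_apply, Finset.sum_apply, ite_apply, ind_three, Pi.zero_apply]
  simp

theorem ZZ_E01 (A : ℂ) : ZZ A N (E N 0 * E N 1) = N := by
  rw [ZZ_eq]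
  simp only [Module.End.mul_apply, E0_apply, E1_apply, Finset.sum_apply, ite_apply, ind_three,
    Pi.zero_apply]
  simp

theorem ZZ_E10 (A : ℂ) : ZZ A N (E N 1 * E N 0) = (N : ℂ) ^ 2 := by
  rw [ZZ_eq]
  simp only [Module.End.mul_apply, E0_apply, E1_apply, Finset.sum_apply, ite_apply, ind_three,
    Pi.zero_apply]
  simp
  ring

/-! ### The operator of a word -/

/-- the operator `X` of a braid, its matrix `M` and the coefficient `c` of the identity -/
def Form (N : ℕ) (X : Module.End ℂ ((Fin 3 → Fin N) → ((Fin 3 → Fin N) → ℂ)))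
    (M : Matrix (Fin 2) (Fin 2) ℂ) (c : ℂ) : Prop :=
  ∃ b₀ b₁ g g' : ℂ, X = c • 1 + b₀ • E N 0 + b₁ • E N 1 + g • (E N 1 * E N 0) + g' • (E N 0 * E N 1) ∧
    M = !![c + N * b₁ + g, b₁ + N * g; b₀ + N * g', c + N * b₀ + g']

theorem Form_one : Form N 1 1 1 := by
  refine ⟨0, 0, 0, 0, by simp, ?_⟩
  simp [Matrix.one_fin_two]

theorem Form_E0 {X : Module.End ℂ ((Fin 3 → Fin N) → ((Fin 3 → Fin N) → ℂ))}
    {M : Matrix (Fin 2) (Fin 2) ℂ} {c : ℂ} (h : Form N X M c) (p q : ℂ) :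
    Form N ((p • (1 : Module.End ℂ ((Fin 3 → Fin N) → ((Fin 3 → Fin N) → ℂ))) + q • E N 0) * X)
      (!![p, 0; q, p + q * N] * M) (p * c) := by
  obtain ⟨b₀, b₁, g, g', rfl, rfl⟩ := h
  have h1 := (isTL_ee (W := (Fin 3 → Fin N) → ℂ) 3 N).sq 0 (by norm_num)
  have h2 := (isTL_ee (W := (Fin 3 → Fin N) → ℂ) 3 N).up 0 (by norm_num)
  refine ⟨p * b₀ + q * (c + N * b₀ + g), p * b₁, p * g, p * g' + q * (b₁ + N * g'), ?_, ?_⟩
  · have e1 : E N 0 * (c • (1 : Module.End ℂ ((Fin 3 → Fin N) → ((Fin 3 → Fin N) → ℂ))) + b₀ • E N 0 +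
        b₁ • E N 1 + g • (E N 1 * E N 0) + g' • (E N 0 * E N 1)) =
        (c + N * b₀ + g) • E N 0 + (b₁ + N * g') • (E N 0 * E N 1) := by
      simp only [mul_add, mul_smul_comm, mul_one]
      rw [← mul_assoc, ← mul_assoc, h1, h2, smul_mul_assoc]
      module
    rw [add_mul, smul_mul_assoc, smul_mul_assoc, one_mul, e1]
    module
  · ext i j
    fin_cases i <;> fin_cases j <;> simp [Matrix.mul_apply, Fin.sum_univ_two]
    all_goals ring

theorem Form_E1 {X : Module.End ℂ ((Fin 3 → Fin N) → ((Fin 3 → Fin N) → ℂ))}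
    {M : Matrix (Fin 2) (Fin 2) ℂ} {c : ℂ} (h : Form N X M c) (p q : ℂ) :
    Form N ((p • (1 : Module.End ℂ ((Fin 3 → Fin N) → ((Fin 3 → Fin N) → ℂ))) + q • E N 1) * X)
      (!![p + q * N, q; 0, p] * M) (p * c) := by
  obtain ⟨b₀, b₁, g, g', rfl, rfl⟩ := h
  have h1 := (isTL_ee (W := (Fin 3 → Fin N) → ℂ) 3 N).sq 1 (by norm_num)
  have h2 := (isTL_ee (W := (Fin 3 → Fin N) → ℂ) 3 N).down 0 (by norm_num)
  refine ⟨p * b₀, p * b₁ + q * (c + N * b₁ + g'), p * g + q * (b₀ + N * g), p * g', ?_, ?_⟩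
  · have e1 : E N 1 * (c • (1 : Module.End ℂ ((Fin 3 → Fin N) → ((Fin 3 → Fin N) → ℂ))) + b₀ • E N 0 +
        b₁ • E N 1 + g • (E N 1 * E N 0) + g' • (E N 0 * E N 1)) =
        (c + N * b₁ + g') • E N 1 + (b₀ + N * g) • (E N 1 * E N 0) := by
      simp only [mul_add, mul_smul_comm, mul_one]
      rw [← mul_assoc, ← mul_assoc, h1]
      rw [zero_add] at h2
      rw [h2, smul_mul_assoc]
      module
    rw [add_mul, smul_mul_assoc, smul_mul_assoc, one_mul, e1]
    module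
  · ext i j
    fin_cases i <;> fin_cases j <;> simp [Matrix.mul_apply, Fin.sum_univ_two]
    all_goals ring

theorem Form_word {A : ℂ} (hA : A ≠ 0) (hN : (N : ℂ) = -A^2 - A⁻¹^2) (w : Word) :
    Form N (rho A 3 N (nat w)) (R (Units.mk0 A hA) (braid w)).val
      ((chi (Units.mk0 A hA) (braid w) : ℂˣ) : ℂ) := by
  induction w with
  | nil => simpa [rho, nat, braid] using Form_one
  | cons x w ih =>
    obtain ⟨b, i⟩ := x
    have e1 : rho A 3 N (nat ((b, i) :: w)) = lt A 3 N (b, (i : ℕ)) * rho A 3 N (nat w) := by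
      simp [rho, nat]
    have hA1 : A + A⁻¹ * N = -A⁻¹ ^ 3 := by rw [hN]; field_simp; ring
    have hA2 : A⁻¹ + A * N = -A ^ 3 := by rw [hN]; field_simp; ring
    have e2 : braid ((b, i) :: w) = (if b then σ i else (σ i)⁻¹) * braid w := by simp [braid]
    rw [e1, e2]
    have h0 : ∀ b : Bool, Form N (lt A 3 N (b, 0) * rho A 3 N (nat w))
        (R (Units.mk0 A hA) ((if b then σ 0 else (σ 0)⁻¹) * braid w)).val
        ((chi (Units.mk0 A hA) ((if b then σ 0 else (σ 0)⁻¹) * braid w) : ℂˣ) : ℂ) := by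
      intro b
      cases b
      · rw [if_neg (by simp), map_mul, map_mul, map_inv, map_inv, R_0, chi_σ]
        have := Form_E0 ih A⁻¹ A
        rw [hA2] at this
        simpa [lt, sg, g0] using this
      · rw [if_pos rfl, map_mul, map_mul, R_0, chi_σ]
        have := Form_E0 ih A A⁻¹
        rw [hA1] at this
        simpa [lt, sg, g0] using this
    have h1 : ∀ b : Bool, Form N (lt A 3 N (b, 1) * rho A 3 N (nat w))
        (R (Units.mk0 A hA) ((if b then σ 1 else (σ 1)⁻¹) * braid w)).val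
        ((chi (Units.mk0 A hA) ((if b then σ 1 else (σ 1)⁻¹) * braid w) : ℂˣ) : ℂ) := by
      intro b
      cases b
      · rw [if_neg (by simp), map_mul, map_mul, map_inv, map_inv, R_1, chi_σ]
        have := Form_E1 ih A⁻¹ A
        rw [hA2] at this
        simpa [lt, sg, g1] using this
      · rw [if_pos rfl, map_mul, map_mul, R_1, chi_σ]
        have := Form_E1 ih A A⁻¹
        rw [hA1] at this
        simpa [lt, sg, g1] using this
    fin_cases i
    · exact h0 b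
    · exact h1 b

theorem ZZ_form {A : ℂ} (hA : A ≠ 0) (hN : (N : ℂ) = -A^2 - A⁻¹^2)
    {X : Module.End ℂ ((Fin 3 → Fin N) → ((Fin 3 → Fin N) → ℂ))}
    {g : B3} (h : Form N X (R (Units.mk0 A hA) g).val ((chi (Units.mk0 A hA) g : ℂˣ) : ℂ)) :
    (1 + (N : ℂ)) * ZZ A N X = N * Lam (Units.mk0 A hA) g := by
  have hd : dl (Units.mk0 A hA) = N := by rw [hN, dl]; simp
  rw [Lam, tt, hd]
  generalize (R (Units.mk0 A hA) g).val = M at h ⊢
  generalize ((chi (Units.mk0 A hA) g : ℂˣ) : ℂ) = c at h ⊢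
  obtain ⟨b₀, b₁, g, g', rfl, rfl⟩ := h
  rw [ZZ_add, ZZ_add, ZZ_add, ZZ_add, ZZ_smul, ZZ_smul, ZZ_smul, ZZ_smul, ZZ_smul, ZZ_one, ZZ_E0,
    ZZ_E1, ZZ_E10, ZZ_E01]
  simp
  ring

theorem nat_mem (w : Word) : ∀ x ∈ nat w, x.2 + 1 < 3 := by
  intro x hx
  unfold nat at hx
  rw [List.mem_map] at hx
  obtain ⟨y, _, rfl⟩ := hx
  have := y.2.2
  simp only
  omega

theorem ev_knotoid (M : ℕ) (hM : 3 ≤ M) (w : Word) :
    (1 + (M : ℂ)) * ev M hM (knotoid w).bracket = Lam (Units.mk0 (Ar M) (Ar_ne M hM)) (braid w) := by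
  have : Nonempty (draw (spiral 3) (nat w)).P := ⟨(draw (spiral 3) (nat w)).lower 0⟩
  have h1 := ev_bracket M hM (knotoid w)
  unfold knotoid at h1 ⊢
  rw [Z_close, Zg_draw (nat w) (spiral 3) (nat_mem w)] at h1
  have h2 := ZZ_form (Ar_ne M hM) (Ar_d M hM) (Form_word (Ar_ne M hM) (Ar_d M hM) w)
  unfold ZZ at h2
  rw [← h1] at h2
  have h3 : (M : ℂ) ≠ 0 := by
    have : M ≠ 0 := by omega
    exact_mod_cast this
  apply mul_left_cancel₀ h3
  rw [← h2]
  ring

theorem bracket_eq (w : Word) : (1 + dl uT) * (knotoid w).bracket = Lam uT (braid w) := by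
  have h : (1 + dl uT) * (knotoid w).bracket - Lam uT (braid w) + 1 = 1 := by
    apply eq_one_of_ev
    intro M hM
    have h1 := ev_knotoid M hM w
    have e1 : ∀ x, ev M hM x = evU (Units.mk0 (Ar M) (Ar_ne M hM)) x := fun _ => rfl
    rw [map_add, map_sub, map_mul, map_add, map_one, e1 (dl uT), evU_dl, e1 (Lam uT _), evU_Lam]
    have hd : dl (Units.mk0 (Ar M) (Ar_ne M hM)) = M := by rw [Ar_d M hM, dl]; simp
    rw [hd, h1]
    ring
  linear_combination h

theorem ex_braid (w : Word) : ex (braid w) = Multiplicative.ofAdd (expo (nat w)) := by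
  induction w with
  | nil => simp [braid, nat, expo]
  | cons x w ih =>
    obtain ⟨b, i⟩ := x
    have e2 : braid ((b, i) :: w) = (if b then σ i else (σ i)⁻¹) * braid w := by simp [braid]
    have e3 : expo (nat ((b, i) :: w)) = (if b then (1:ℤ) else -1) + expo (nat w) := by
      simp [expo, nat]
    rw [e2, e3, map_mul, ih, ofAdd_add]
    cases b
    · simp [ex_σ]
    · simp [ex_σ]

theorem writhe_eq (w : Word) : (knotoid w).writhe = expo (nat w) := by
  unfold knotoid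
  rw [close_writhe, (draw_up (nat w) (spiral 3) (nat_mem w) (fun _ => rfl)).2]
  simp [owr, spiral]

theorem fPoly_eq (w : Word) : (knotoid w).fPoly =
    sgn (expo (nat w)) * T (-3 * expo (nat w)) * (knotoid w).bracket := by
  unfold Diagram.fPoly
  rw [writhe_eq]
  rfl

theorem fPoly_one_iff (w : Word) : (knotoid w).fPoly = 1 ↔ ∃ k : ℤ, braid w = σ 1 ^ k * σ 0 ^ (-k) := by
  rw [fPoly_eq]
  exact alg_main (ex_braid w) (bracket_eq w)

end Pool.Agent.K6.H34.S3
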