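import Pool.Agent.K6.H34.S3.Grp

/-!
# The Burau representation of the braid group on three strands and a functional
-/

set_option autoImplicit false

namespace Pool.Agent.K6.H34.S3

section rep

variable {S : Type*} [CommRing S]

theorem uv (a : Sˣ) : (a : S) * ((a⁻¹ : Sˣ) : S) = 1 := by simp

/-- the image of the generator `σ_0` -/
def g0 (a : Sˣ) : (Matrix (Fin 2) (Fin 2) S)ˣ where
  val := !![(a : S), 0; ((a⁻¹ : Sˣ) : S), -((a⁻¹ : Sˣ) : S) ^ 3]
  inv := !![((a⁻¹ : Sˣ) : S), 0; (a : S), -(a : S) ^ 3]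
  val_inv := by
    have h := uv a
    generalize ((a⁻¹ : Sˣ) : S) = b at *
    generalize (a : S) = c at *
    ext i j
    fin_cases i <;> fin_cases j <;> simp [Matrix.mul_apply, Fin.sum_univ_two]
    · exact h
    · linear_combination (-b ^ 2) * h
    · linear_combination (b^2*c^2 + b*c + 1) * h
  inv_val := by
    have h := uv a
    generalize ((a⁻¹ : Sˣ) : S) = b at *
    generalize (a : S) = c at *
    ext i j
    fin_cases i <;> fin_cases j <;> simp [Matrix.mul_apply, Fin.sum_univ_two]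
    · linear_combination h
    · linear_combination (-c ^ 2) * h
    · linear_combination (b^2*c^2 + b*c + 1) * h

/-- the image of the generator `σ_1` -/
def g1 (a : Sˣ) : (Matrix (Fin 2) (Fin 2) S)ˣ where
  val := !![-((a⁻¹ : Sˣ) : S) ^ 3, ((a⁻¹ : Sˣ) : S); 0, (a : S)]
  inv := !![-(a : S) ^ 3, (a : S); 0, ((a⁻¹ : Sˣ) : S)]
  val_inv := by
    have h := uv a
    generalize ((a⁻¹ : Sˣ) : S) = b at *
    generalize (a : S) = c at *
    ext i j
    fin_cases i <;> fin_cases j <;> simp [Matrix.mul_apply, Fin.sum_univ_two]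
    · linear_combination (b^2*c^2 + b*c + 1) * h
    · linear_combination (-b ^ 2) * h
    · exact h
  inv_val := by
    have h := uv a
    generalize ((a⁻¹ : Sˣ) : S) = b at *
    generalize (a : S) = c at *
    ext i j
    fin_cases i <;> fin_cases j <;> simp [Matrix.mul_apply, Fin.sum_univ_two]
    · linear_combination (b^2*c^2 + b*c + 1) * h
    · linear_combination (-c ^ 2) * h
    · linear_combination h

theorem g_br (a : Sˣ) : g0 a * g1 a * g0 a = g1 a * g0 a * g1 a := by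
  apply Units.ext
  have h := uv a
  simp only [Units.val_mul, g0, g1]
  generalize ((a⁻¹ : Sˣ) : S) = b at *
  generalize (a : S) = c at *
  ext i j
  fin_cases i <;> fin_cases j <;> simp [Matrix.mul_apply, Fin.sum_univ_two]
  · linear_combination (-b^2*c - b^5) * h
  · linear_combination (b^3) * h
  · linear_combination (-b^3) * h
  · linear_combination (b^2*c + b^5) * h

/-- the Burau representation -/
def R (a : Sˣ) : B3 →* (Matrix (Fin 2) (Fin 2) S)ˣ :=
  mkHom (fun i => if i = 0 then g0 a else g1 a) (by simpa using g_br a)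

theorem R_0 (a : Sˣ) : R a (σ 0) = g0 a := by simp [R]
theorem R_1 (a : Sˣ) : R a (σ 1) = g1 a := by simp [R]

/-- the character with the value `a` on the generators -/
def chi (a : Sˣ) : B3 →* Sˣ := mkHom (fun _ => a) rfl

theorem chi_σ (a : Sˣ) (i : Fin 2) : chi a (σ i) = a := by simp [chi]

/-- the exponent sum -/
def ex : B3 →* Multiplicative ℤ := mkHom (fun _ => Multiplicative.ofAdd 1) rfl

theorem ex_σ (i : Fin 2) : ex (σ i) = Multiplicative.ofAdd 1 := by simp [ex]

theorem chi_eq (a : Sˣ) (g : B3) : chi a g = a ^ (Multiplicative.toAdd (ex g)) := by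
  have h : chi a = (zpowersHom Sˣ a).comp ex := by
    apply hom_ext
    · simp [chi_σ, ex_σ]
    · simp [chi_σ, ex_σ]
  rw [h]
  rfl

/-- the loop value -/
def dl (a : Sˣ) : S := -(a : S) ^ 2 - ((a⁻¹ : Sˣ) : S) ^ 2

/-- the twisted trace -/
def tt (a : Sˣ) (M : Matrix (Fin 2) (Fin 2) S) : S := M 1 0 + M 1 1 + (1 + dl a) * M 0 1

def NN (a : Sˣ) : Matrix (Fin 2) (Fin 2) S := !![0, 1; 1 + dl a, 1]

theorem tt_eq (a : Sˣ) (M : Matrix (Fin 2) (Fin 2) S) : tt a M = (NN a * M).trace := by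
  simp only [tt, NN, Matrix.trace_fin_two, Matrix.mul_apply, Fin.sum_univ_two]
  simp
  ring

theorem semi (a : Sˣ) : SemiconjBy (NN a) ((g1 a : (Matrix (Fin 2) (Fin 2) S)ˣ) : Matrix (Fin 2) (Fin 2) S)
    ((g0 a : (Matrix (Fin 2) (Fin 2) S)ˣ) : Matrix (Fin 2) (Fin 2) S) := by
  change NN a * (g1 a).val = (g0 a).val * NN a
  have h := uv a
  simp only [NN, g0, g1, dl]
  generalize ((a⁻¹ : Sˣ) : S) = b at *
  generalize (a : S) = c at *
  ext i j
  fin_cases i <;> fin_cases j <;> simp [Matrix.mul_apply, Fin.sum_univ_two]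
  · ring
  · linear_combination (-c) * h

/-- the slide relation -/
theorem tt_slide (a : Sˣ) (g : B3) (n : ℤ) :
    tt a (R a (g * σ 0 ^ n)).val = tt a (R a (σ 1 ^ n * g)).val := by
  rw [tt_eq, tt_eq, map_mul, map_mul, map_zpow, map_zpow, R_0, R_1, Units.val_mul, Units.val_mul,
    ← mul_assoc, Matrix.trace_mul_comm, ← mul_assoc, ← mul_assoc]
  have h := (semi a).units_zpow_right n
  rw [← h.eq]

theorem tt_one (a : Sˣ) : tt a (1 : Matrix (Fin 2) (Fin 2) S) = 1 := by
  simp [tt]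

theorem tt_triv (a : Sˣ) (k : ℤ) : tt a (R a (σ 1 ^ k * σ 0 ^ (-k))).val = 1 := by
  rw [tt_slide, ← zpow_add]
  simp [tt_one]

theorem R_X (a : Sˣ) : (R a X3).val = !![0, -((a⁻¹ : Sˣ) : S) ^ 3 ; -((a⁻¹ : Sˣ) : S) ^ 3, 0] := by
  rw [X3, map_mul, map_mul, R_0, R_1]
  have h := uv a
  simp only [Units.val_mul, g0, g1]
  generalize ((a⁻¹ : Sˣ) : S) = b at *
  generalize (a : S) = c at *
  ext i j
  fin_cases i <;> fin_cases j <;> simp [Matrix.mul_apply, Fin.sum_univ_two]
  · linear_combination (-b ^ 5) * h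
  · linear_combination (-2 * b ^ 3) * h
  · linear_combination (b ^ 3) * h
  · linear_combination (-c * b ^ 2) * h

theorem R_C (a : Sˣ) : (R a C3).val = (((a⁻¹ : Sˣ) : S) ^ 6) • (1 : Matrix (Fin 2) (Fin 2) S) := by
  rw [C3, map_mul, Units.val_mul, R_X]
  ext i j
  fin_cases i <;> fin_cases j <;> simp [Matrix.mul_apply, Fin.sum_univ_two]
  all_goals ring

theorem R_C' (a : Sˣ) : R a C3 = Units.map (algebraMap S (Matrix (Fin 2) (Fin 2) S)).toMonoidHom (a⁻¹ ^ 6) := by
  apply Units.ext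
  rw [R_C]
  rw [Units.coe_map, Units.val_pow_eq_pow_val]
  simp only [RingHom.toMonoidHom_eq_coe, MonoidHom.coe_coe, Algebra.algebraMap_eq_smul_one]

theorem tt_C (a : Sˣ) (m : ℤ) (g : B3) :
    tt a (R a (C3 ^ m * g)).val = (((a⁻¹ ^ 6) ^ m : Sˣ) : S) * tt a (R a g).val := by
  rw [map_mul, map_zpow, R_C', ← map_zpow, Units.val_mul]
  simp only [Units.coe_map, RingHom.toMonoidHom_eq_coe, MonoidHom.coe_coe, Algebra.algebraMap_eq_smul_one,
    smul_mul_assoc, one_mul]
  simp only [tt, Matrix.smul_apply, smul_eq_mul]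
  ring

/-- the value of the bracket, up to the factor `1 + dl a` -/
def Lam (a : Sˣ) (g : B3) : S := dl a * ((chi a g : Sˣ) : S) + tt a (R a g).val

theorem Lam_triv (a : Sˣ) (k : ℤ) : Lam a (σ 1 ^ k * σ 0 ^ (-k)) = 1 + dl a := by
  rw [Lam, tt_triv]
  simp [chi_σ]
  ring

theorem Lam_C (a : Sˣ) (k m : ℤ) : Lam a (C3 ^ m * (σ 1 ^ k * σ 0 ^ (-k))) =
    dl a * ((a ^ (6 * m) : Sˣ) : S) + ((a ^ (-(6 * m)) : Sˣ) : S) := by
  rw [Lam, tt_C, tt_triv, mul_one]
  congr 2
  · congr 1
    rw [map_mul, map_mul, map_zpow, map_zpow, map_zpow, chi_σ, chi_σ, C3, X3]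
    simp only [map_mul, chi_σ]
    have : a * a * a * (a * a * a) = a ^ (6 : ℤ) := by
      rw [show (6 : ℤ) = ((6 : ℕ) : ℤ) from rfl, zpow_natCast]
      simp only [pow_succ, pow_zero, one_mul, mul_assoc]
    rw [this, ← zpow_mul]
    simp
  · rw [zpow_neg, inv_pow, inv_zpow, zpow_mul]
    rfl

/-- Slide relation -/
theorem Lam_slide (a : Sˣ) (g : B3) (n : ℤ) : Lam a (g * σ 0 ^ n) = Lam a (σ 1 ^ n * g) := by
  rw [Lam, Lam, tt_slide]
  congr 3
  simp [chi_σ, mul_comm]

/-! ### Naturality -/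

variable {S' : Type*} [CommRing S'] (φ : S →+* S')

theorem R_map (a : Sˣ) (g : B3) : (R (Units.map φ.toMonoidHom a) g).val = (R a g).val.map φ := by
  have h : R (Units.map φ.toMonoidHom a) =
      (Units.map (φ.mapMatrix (m := Fin 2)).toMonoidHom).comp (R a) := by
    apply hom_ext
    · apply Units.ext
      rw [MonoidHom.comp_apply, R_0, R_0]
      ext i j
      fin_cases i <;> fin_cases j <;> simp [g0]
    · apply Units.ext
      rw [MonoidHom.comp_apply, R_1, R_1]
      ext i j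
      fin_cases i <;> fin_cases j <;> simp [g1]
  rw [h]
  rfl

theorem Lam_map (a : Sˣ) (g : B3) : φ (Lam a g) = Lam (Units.map φ.toMonoidHom a) g := by
  have h1 : chi (Units.map φ.toMonoidHom a) g = Units.map φ.toMonoidHom (chi a g) := by
    rw [chi_eq, chi_eq, map_zpow]
  rw [Lam, Lam, R_map, h1]
  simp [tt, dl]

end rep

end Pool.Agent.K6.H34.S3
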